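import Mathlib

/-! Counting words in strings of fixed length: a second moment bound. -/

namespace Pool.Agent.R902.GN

open Finset

variable {A : ℕ}

/-- number of strings with prescribed values on a set -/
theorem card_prescribed (j : ℕ) (I : Finset (Fin j)) (f : Fin j → Fin A) :
    (univ.filter (fun u : Fin j → Fin A => ∀ i ∈ I, u i = f i)).card = A ^ (j - I.card) := by
  classical
  have h1 : (univ.filter (fun u : Fin j → Fin A => ∀ i ∈ I, u i = f i))
      = Fintype.piFinset (fun i => if i ∈ I then ({f i} : Finset (Fin A)) else univ) := by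
    ext u
    simp only [mem_filter, mem_univ, true_and, Fintype.mem_piFinset]
    constructor
    · intro h i
      by_cases hi : i ∈ I
      · simp [hi, h i hi]
      · simp [hi]
    · intro h i hi
      have := h i
      simpa [hi] using this
  rw [h1, Fintype.card_piFinset]
  have h2 : ∀ i : Fin j, (if i ∈ I then ({f i} : Finset (Fin A)) else univ).card
      = if i ∈ I then 1 else A := by
    intro i
    split_ifs <;> simp
  simp_rw [h2]
  rw [Finset.prod_ite]
  simp only [prod_const_one, one_mul, prod_const]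
  congr 1
  have h3 : (univ.filter (fun i => i ∉ I)) = Iᶜ := by
    ext i; simp
  rw [h3, Finset.card_compl, Fintype.card_fin]

/-- the word `w` occurs in the string `u` at position `m` -/
def Occ {j ℓ : ℕ} (w : Fin ℓ → Fin A) (u : Fin j → Fin A) (m : ℕ) : Prop :=
  ∀ i : Fin ℓ, ∀ h : m + i < j, u ⟨m + i, h⟩ = w i

instance {j ℓ : ℕ} (w : Fin ℓ → Fin A) (u : Fin j → Fin A) (m : ℕ) : Decidable (Occ w u m) := by
  unfold Occ; infer_instance

/-- the window of positions -/
def Win (j ℓ m : ℕ) : Finset (Fin j) := univ.filter (fun i : Fin j => m ≤ i ∧ (i : ℕ) < m + ℓ)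

theorem card_win {j ℓ m : ℕ} (h : m + ℓ ≤ j) : (Win j ℓ m).card = ℓ := by
  have : (Win j ℓ m).card = (Finset.Ico m (m + ℓ)).card := by
    apply Finset.card_bij (fun (i : Fin j) _ => (i : ℕ))
    · intro i hi
      simp only [Win, mem_filter, mem_univ, true_and] at hi
      simp [hi]
    · intro i _ i' _ h
      exact Fin.ext h
    · intro b hb
      simp only [Finset.mem_Ico] at hb
      exact ⟨⟨b, by omega⟩, by simp [Win, hb], rfl⟩
  rw [this, Nat.card_Ico]; omega

theorem card_occ {j ℓ m : ℕ} (hA : 0 < A) (w : Fin ℓ → Fin A) (h : m + ℓ ≤ j) :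
    (univ.filter (fun u : Fin j → Fin A => Occ w u m)).card = A ^ (j - ℓ) := by
  have := card_prescribed (A := A) j (Win j ℓ m)
    (fun i => if h : (i : ℕ) - m < ℓ then w ⟨i - m, h⟩ else ⟨0, hA⟩)
  rw [card_win h] at this
  rw [← this]
  congr 1
  ext u
  simp only [mem_filter, mem_univ, true_and, Win]
  unfold Occ
  constructor
  · intro hu i hi
    have h1 : (i : ℕ) - m < ℓ := by omega
    rw [dif_pos h1]
    have := hu ⟨i - m, h1⟩ (by simp; omega)
    rw [← this]
    congr 1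
    apply Fin.ext
    simp; omega
  · intro hu i hi
    have := hu ⟨m + i, hi⟩ ⟨by simp, by simp⟩
    rw [this]
    have h1 : m + (i : ℕ) - m < ℓ := by have := i.2; omega
    rw [dif_pos h1]
    congr 1
    apply Fin.ext
    simp

theorem card_occ_two {j ℓ m m' : ℕ} (hA : 0 < A) (w : Fin ℓ → Fin A) (h1 : m + ℓ ≤ m')
    (h : m' + ℓ ≤ j) :
    (univ.filter (fun u : Fin j → Fin A => Occ w u m ∧ Occ w u m')).card
      = A ^ (j - 2 * ℓ) := by
  have hdisj : Disjoint (Win j ℓ m) (Win j ℓ m') := by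
    rw [Finset.disjoint_left]
    intro i hi hi'
    simp only [Win, mem_filter, mem_univ, true_and] at hi hi'
    omega
  have := card_prescribed (A := A) j (Win j ℓ m ∪ Win j ℓ m')
    (fun i => if (i : ℕ) < m + ℓ then
        (if h : (i : ℕ) - m < ℓ then w ⟨i - m, h⟩ else ⟨0, hA⟩)
      else (if h : (i : ℕ) - m' < ℓ then w ⟨i - m', h⟩ else ⟨0, hA⟩))
  rw [Finset.card_union_of_disjoint hdisj, card_win (by omega), card_win h] at this
  rw [two_mul, ← this]
  congr 1
  ext u
  simp only [mem_filter, mem_univ, true_and, Win, Finset.mem_union]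
  unfold Occ
  constructor
  · rintro ⟨hu, hu'⟩ i hi
    rcases hi with hi | hi
    · have h1 : (i : ℕ) - m < ℓ := by omega
      rw [if_pos (by omega), dif_pos h1]
      have := hu ⟨i - m, h1⟩ (by simp; omega)
      rw [← this]
      congr 1
      apply Fin.ext
      simp; omega
    · have h1 : (i : ℕ) - m' < ℓ := by omega
      rw [if_neg (by omega), dif_pos h1]
      have := hu' ⟨i - m', h1⟩ (by simp; omega)
      rw [← this]
      congr 1
      apply Fin.ext
      simp; omega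
  · intro hu
    constructor
    · intro i hi
      have := hu ⟨m + i, hi⟩ (Or.inl ⟨by simp, by simp⟩)
      rw [this]
      have h1 : m + (i : ℕ) - m < ℓ := by have := i.2; omega
      have h2 : m + (i : ℕ) < m + ℓ := by have := i.2; omega
      rw [if_pos h2, dif_pos h1]
      congr 1
      apply Fin.ext
      simp
    · intro i hi
      have := hu ⟨m' + i, hi⟩ (Or.inr ⟨by simp, by simp⟩)
      rw [this]
      have h1 : m' + (i : ℕ) - m' < ℓ := by have := i.2; omega
      have h2 : ¬ (m' + (i : ℕ) < m + ℓ) := by omega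
      rw [if_neg h2, dif_pos h1]
      congr 1
      apply Fin.ext
      simp

/-- the indicator -/
noncomputable def ind {j ℓ : ℕ} (w : Fin ℓ → Fin A) (u : Fin j → Fin A) (m : ℕ) : ℝ :=
  if Occ w u m then 1 else 0

theorem sum_ind {j ℓ m : ℕ} (hA : 0 < A) (w : Fin ℓ → Fin A) (h : m + ℓ ≤ j) :
    ∑ u : Fin j → Fin A, ind w u m = (A : ℝ) ^ j * ((1 : ℝ) / A) ^ ℓ := by
  have h0 : (A : ℝ) ≠ 0 := by positivity
  unfold ind
  rw [← Finset.sum_filter, Finset.sum_const, nsmul_eq_mul, mul_one, card_occ hA w h]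
  push_cast
  rw [div_pow, one_pow, mul_one_div, eq_div_iff (pow_ne_zero _ h0), ← pow_add]
  congr 1; omega

theorem sum_ind_two {j ℓ m m' : ℕ} (hA : 0 < A) (w : Fin ℓ → Fin A) (h1 : m + ℓ ≤ m')
    (h : m' + ℓ ≤ j) :
    ∑ u : Fin j → Fin A, ind w u m * ind w u m' = (A : ℝ) ^ j * ((1 : ℝ) / A) ^ (2 * ℓ) := by
  have h0 : (A : ℝ) ≠ 0 := by positivity
  have h2 : ∀ u : Fin j → Fin A, ind w u m * ind w u m'
      = if (Occ w u m ∧ Occ w u m') then 1 else 0 := by
    intro u
    unfold ind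
    by_cases h1 : Occ w u m <;> by_cases h2 : Occ w u m' <;> simp [h1, h2]
  simp_rw [h2]
  rw [← Finset.sum_filter, Finset.sum_const, nsmul_eq_mul, mul_one, card_occ_two hA w h1 h]
  push_cast
  rw [div_pow, one_pow, mul_one_div, eq_div_iff (pow_ne_zero _ h0), ← pow_add]
  congr 1; omega

theorem ind_nonneg {j ℓ : ℕ} (w : Fin ℓ → Fin A) (u : Fin j → Fin A) (m : ℕ) :
    0 ≤ ind w u m := by unfold ind; split_ifs <;> norm_num

theorem ind_le_one {j ℓ : ℕ} (w : Fin ℓ → Fin A) (u : Fin j → Fin A) (m : ℕ) :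
    ind w u m ≤ 1 := by unfold ind; split_ifs <;> norm_num

/-- covariance -/
theorem cov_le {j ℓ m m' : ℕ} (hA : 0 < A) (w : Fin ℓ → Fin A) (h : m + ℓ ≤ j)
    (h' : m' + ℓ ≤ j) :
    ∑ u : Fin j → Fin A, (ind w u m - ((1 : ℝ) / A) ^ ℓ) * (ind w u m' - ((1 : ℝ) / A) ^ ℓ)
      ≤ if m < m' + ℓ ∧ m' < m + ℓ then (A : ℝ) ^ j else 0 := by
  have h0 : (A : ℝ) ≠ 0 := by positivity
  set p : ℝ := ((1 : ℝ) / A) ^ ℓ with hp
  have hp0 : 0 ≤ p := by positivity
  have key : ∑ u : Fin j → Fin A, (ind w u m - p) * (ind w u m' - p)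
      = ∑ u : Fin j → Fin A, ind w u m * ind w u m' - (A : ℝ) ^ j * p ^ 2 := by
    have : ∀ u : Fin j → Fin A, (ind w u m - p) * (ind w u m' - p)
        = ind w u m * ind w u m' - p * ind w u m - p * ind w u m' + p ^ 2 := by
      intro u; ring
    simp_rw [this]
    rw [Finset.sum_add_distrib, Finset.sum_sub_distrib, Finset.sum_sub_distrib,
      ← Finset.mul_sum, ← Finset.mul_sum, sum_ind hA w h, sum_ind hA w h', Finset.sum_const,
      Finset.card_univ, Fintype.card_fun, Fintype.card_fin, Fintype.card_fin, nsmul_eq_mul]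
    push_cast
    ring
  rw [key]
  split_ifs with hc
  · have : ∑ u : Fin j → Fin A, ind w u m * ind w u m' ≤ ∑ _u : Fin j → Fin A, (1 : ℝ) := by
      apply Finset.sum_le_sum
      intro u _
      have := ind_nonneg w u m
      have := ind_nonneg w u m'
      have := ind_le_one w u m
      have := ind_le_one w u m'
      nlinarith
    rw [Finset.sum_const, Finset.card_univ, Fintype.card_fun, Fintype.card_fin,
      Fintype.card_fin, nsmul_eq_mul, mul_one] at this
    push_cast at this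
    have h3 : 0 ≤ (A : ℝ) ^ j * p ^ 2 := by positivity
    linarith
  · have hc' : m' + ℓ ≤ m ∨ m + ℓ ≤ m' := by
      by_contra hcon
      push Not at hcon
      exact hc ⟨hcon.1, hcon.2⟩
    have e : ∑ u : Fin j → Fin A, ind w u m * ind w u m' = (A : ℝ) ^ j * p ^ 2 := by
      rcases hc' with hc' | hc'
      · have := sum_ind_two hA w hc' h
        rw [hp, ← pow_mul, mul_comm ℓ 2, ← this]
        apply Finset.sum_congr rfl
        intro u _; ring
      · have := sum_ind_two hA w hc' h'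
        rw [hp, ← pow_mul, mul_comm ℓ 2, ← this]
    rw [e]; linarith

/-- the second moment -/
theorem second_moment {j ℓ : ℕ} (hA : 0 < A) (w : Fin ℓ → Fin A) :
    ∑ u : Fin j → Fin A,
      (∑ m ∈ range (j + 1 - ℓ), (ind w u m - ((1 : ℝ) / A) ^ ℓ)) ^ 2
      ≤ (A : ℝ) ^ j * ((j + 1) * (2 * ℓ)) := by
  set p : ℝ := ((1 : ℝ) / A) ^ ℓ with hp
  have h1 : ∀ u : Fin j → Fin A, (∑ m ∈ range (j + 1 - ℓ), (ind w u m - p)) ^ 2
      = ∑ m ∈ range (j + 1 - ℓ), ∑ m' ∈ range (j + 1 - ℓ), (ind w u m - p) * (ind w u m' - p) := by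
    intro u
    rw [sq, Finset.sum_mul_sum]
  simp_rw [h1]
  rw [Finset.sum_comm]
  have h2 : ∀ m ∈ range (j + 1 - ℓ), ∑ u : Fin j → Fin A,
      ∑ m' ∈ range (j + 1 - ℓ), (ind w u m - p) * (ind w u m' - p) ≤ (A : ℝ) ^ j * (2 * ℓ) := by
    intro m hm
    rw [Finset.sum_comm]
    have h3 : ∀ m' ∈ range (j + 1 - ℓ), ∑ u : Fin j → Fin A, (ind w u m - p) * (ind w u m' - p)
        ≤ if m < m' + ℓ ∧ m' < m + ℓ then (A : ℝ) ^ j else 0 := by
      intro m' hm'
      rw [Finset.mem_range] at hm hm'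
      exact cov_le hA w (by omega) (by omega)
    refine (Finset.sum_le_sum h3).trans ?_
    rw [← Finset.sum_filter, Finset.sum_const, nsmul_eq_mul]
    have h4 : ((range (j + 1 - ℓ)).filter (fun m' => m < m' + ℓ ∧ m' < m + ℓ)).card ≤ 2 * ℓ := by
      calc ((range (j + 1 - ℓ)).filter (fun m' => m < m' + ℓ ∧ m' < m + ℓ)).card
          ≤ (Finset.Ico (m + 1 - ℓ) (m + ℓ)).card := by
            apply Finset.card_le_card
            intro m' hm'
            simp only [Finset.mem_filter, Finset.mem_range] at hm'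
            simp only [Finset.mem_Ico]
            omega
        _ ≤ 2 * ℓ := by rw [Nat.card_Ico]; omega
    have h5 : (((range (j + 1 - ℓ)).filter (fun m' => m < m' + ℓ ∧ m' < m + ℓ)).card : ℝ)
        ≤ 2 * ℓ := by exact_mod_cast h4
    have h6 : (0 : ℝ) ≤ (A : ℝ) ^ j := by positivity
    nlinarith
  refine (Finset.sum_le_sum h2).trans ?_
  rw [Finset.sum_const, Finset.card_range, nsmul_eq_mul]
  have h7 : ((j + 1 - ℓ : ℕ) : ℝ) ≤ (j : ℝ) + 1 := by
    have : j + 1 - ℓ ≤ j + 1 := Nat.sub_le _ _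
    exact_mod_cast this
  have h8 : (0 : ℝ) ≤ (A : ℝ) ^ j * (2 * ℓ) := by positivity
  nlinarith

/-- bad strings -/
noncomputable def badStr {ℓ : ℕ} (j : ℕ) (w : Fin ℓ → Fin A) (ε : ℝ) : Finset (Fin j → Fin A) := by
  classical
  exact univ.filter (fun u => ε * j < |∑ m ∈ range (j + 1 - ℓ), (ind w u m - ((1 : ℝ) / A) ^ ℓ)|)

theorem card_badStr {ℓ : ℕ} (hA : 0 < A) {j : ℕ} (hj : 0 < j) (w : Fin ℓ → Fin A) {ε : ℝ}
    (hε : 0 < ε) :
    ((badStr j w ε).card : ℝ) ≤ (A : ℝ) ^ j * (4 * ℓ / (ε ^ 2 * j)) := by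
  classical
  have h1 := second_moment (j := j) hA w
  have hj1 : (1 : ℝ) ≤ j := by exact_mod_cast hj
  have h2 : ((badStr j w ε).card : ℝ) * (ε * j) ^ 2 ≤ (A : ℝ) ^ j * ((j + 1) * (2 * ℓ)) := by
    refine le_trans ?_ h1
    have h3 : ((badStr j w ε).card : ℝ) * (ε * j) ^ 2 = ∑ _u ∈ badStr j w ε, (ε * j) ^ 2 := by
      rw [Finset.sum_const, nsmul_eq_mul]
    rw [h3]
    refine le_trans (Finset.sum_le_sum (g := fun u =>
      (∑ m ∈ range (j + 1 - ℓ), (ind w u m - ((1 : ℝ) / A) ^ ℓ)) ^ 2) ?_) ?_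
    · intro u hu
      simp only [badStr, Finset.mem_filter, Finset.mem_univ, true_and] at hu
      rw [← sq_abs (∑ m ∈ range (j + 1 - ℓ), (ind w u m - ((1 : ℝ) / A) ^ ℓ))]
      apply pow_le_pow_left₀ (by positivity) hu.le
    · apply Finset.sum_le_sum_of_subset_of_nonneg (Finset.subset_univ _)
      intro u _ _
      positivity
  have h4 : (0 : ℝ) < (ε * j) ^ 2 := by positivity
  rw [← le_div_iff₀ h4] at h2
  refine h2.trans ?_
  rw [mul_div_assoc]
  apply mul_le_mul_of_nonneg_left _ (by positivity)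
  rw [div_le_div_iff₀ h4 (by positivity)]
  have h5 : (0 : ℝ) ≤ ℓ := by positivity
  have h6 : (0 : ℝ) ≤ ℓ * ε ^ 2 * j := by positivity
  nlinarith

end Pool.Agent.R902.GN
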