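import Mathlib

/-! The lattice of a Gaussian rational base: separation of lattice points with equal last digits. -/

namespace Pool.Agent.R902.GN

open Complex

/-- The lattice `a₂ ℤ + (a₂ α + a₁) ℤ`. -/
def Lam (a2 a1 : ℤ) (α : ℂ) : Set ℂ := {z | ∃ m n : ℤ, z = m * a2 + n * (a2 * α + a1)}

theorem lam_sub {a2 a1 : ℤ} {α z z' : ℂ} (h : z ∈ Lam a2 a1 α) (h' : z' ∈ Lam a2 a1 α) :
    z - z' ∈ Lam a2 a1 α := by
  obtain ⟨m, n, rfl⟩ := h
  obtain ⟨m', n', rfl⟩ := h'
  refine ⟨m - m', n - n', ?_⟩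
  push_cast; ring

theorem coprime_rep (α : ℂ) (u v : ℚ) (h : α = u + v * I) :
    ∃ p1 p2 : GaussianInt, p2 ≠ 0 ∧ IsCoprime p1 p2 ∧ α * (p2 : ℂ) = p1 := by
  set p : GaussianInt := ⟨u.num * v.den, v.num * u.den⟩ with hp
  set q : GaussianInt := ((u.den * v.den : ℕ) : GaussianInt) with hq
  have hq0 : q ≠ 0 := by
    rw [hq]
    have : u.den * v.den ≠ 0 := Nat.mul_ne_zero u.den_ne_zero v.den_ne_zero
    exact_mod_cast this
  have hpq : α * (q : ℂ) = p := by
    have hu : (u : ℂ) * u.den = u.num := by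
      have := Rat.mul_den_eq_num u
      exact_mod_cast this
    have hv : (v : ℂ) * v.den = v.num := by
      have := Rat.mul_den_eq_num v
      exact_mod_cast this
    have hqc : (q : ℂ) = (u.den : ℂ) * v.den := by
      rw [hq, map_natCast]; push_cast; rfl
    have hpc : (p : ℂ) = (u.num : ℂ) * v.den + (v.num : ℂ) * u.den * I := by
      rw [hp, GaussianInt.toComplex_def']; push_cast; rfl
    rw [h, hqc, hpc, ← hu, ← hv]
    ring
  set g := EuclideanDomain.gcd p q with hg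
  have hg0 : g ≠ 0 := by
    intro h0
    exact hq0 ((EuclideanDomain.gcd_eq_zero_iff.1 (hg ▸ h0)).2)
  obtain ⟨p', hp'⟩ := EuclideanDomain.gcd_dvd_left p q
  obtain ⟨q', hq'⟩ := EuclideanDomain.gcd_dvd_right p q
  rw [← hg] at hp' hq'
  refine ⟨p', q', ?_, ?_, ?_⟩
  · rintro rfl
    rw [mul_zero] at hq'
    exact hq0 hq'
  · have hb := EuclideanDomain.gcd_eq_gcd_ab p q
    rw [← hg] at hb
    refine ⟨EuclideanDomain.gcdA p q, EuclideanDomain.gcdB p q, ?_⟩
    apply mul_left_cancel₀ hg0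
    calc g * (EuclideanDomain.gcdA p q * p' + EuclideanDomain.gcdB p q * q')
        = (g * p') * EuclideanDomain.gcdA p q + (g * q') * EuclideanDomain.gcdB p q := by ring
      _ = p * EuclideanDomain.gcdA p q + q * EuclideanDomain.gcdB p q := by rw [← hp', ← hq']
      _ = g := hb.symm
      _ = g * 1 := by ring
  · have hgc : (g : ℂ) ≠ 0 := by
      intro h0
      apply hg0
      exact GaussianInt.toComplex_eq_zero.1 h0
    apply mul_left_cancel₀ hgc
    calc (g : ℂ) * (α * (q' : ℂ)) = α * ((g * q' : GaussianInt) : ℂ) := by rw [map_mul]; ring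
      _ = α * (q : ℂ) := by rw [← hq']
      _ = (p : ℂ) := hpq
      _ = ((g * p' : GaussianInt) : ℂ) := by rw [← hp']
      _ = (g : ℂ) * (p' : ℂ) := by rw [map_mul]

/-- the real form of the equation -/
theorem vieta {a2 a1 a0 : ℤ} {α : ℂ} (him : α.im ≠ 0) (hpoly : (a2 : ℂ) * α ^ 2 + a1 * α + a0 = 0) :
    (a1 : ℝ) = -(2 * a2 * α.re) ∧ (a0 : ℝ) = a2 * Complex.normSq α := by
  have hre := congrArg Complex.re hpoly
  have hi := congrArg Complex.im hpoly
  simp [sq] at hre hi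
  have h1 : (a1 : ℝ) = -(2 * a2 * α.re) := by
    have : α.im * ((a1 : ℝ) + 2 * a2 * α.re) = 0 := by linarith
    rcases mul_eq_zero.1 this with h | h
    · exact absurd h him
    · linarith
  refine ⟨h1, ?_⟩
  rw [Complex.normSq_apply]
  rw [h1] at hre
  linarith

theorem norm_facts {a2 a1 a0 : ℤ} {α : ℂ} (him : α.im ≠ 0) (h2 : 0 < a2)
    (hgcd : Int.gcd (Int.gcd a2 a1) a0 = 1)
    (hpoly : (a2 : ℂ) * α ^ 2 + a1 * α + a0 = 0) (p1 p2 : GaussianInt) (hp2 : p2 ≠ 0)
    (hp : α * (p2 : ℂ) = p1) : a0 ≤ p1.norm := by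
  obtain ⟨hv1, hv2⟩ := vieta him hpoly
  have hn2 : 0 < p2.norm := GaussianInt.norm_pos.2 hp2
  have e1 : (p1.norm : ℝ) = Complex.normSq α * p2.norm := by
    rw [GaussianInt.intCast_real_norm, GaussianInt.intCast_real_norm, ← hp, map_mul]
  have e2 : p1.norm * a2 = p2.norm * a0 := by
    have : (p1.norm : ℝ) * a2 = p2.norm * a0 := by rw [e1, hv2]; ring
    exact_mod_cast this
  set r : ℤ := p1.re * p2.re + p1.im * p2.im with hr
  have e3 : (r : ℝ) = α.re * p2.norm := by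
    have hre := congrArg Complex.re hp
    have hi := congrArg Complex.im hp
    rw [Complex.mul_re] at hre
    rw [Complex.mul_im] at hi
    rw [GaussianInt.intCast_real_norm, Complex.normSq_apply, hr]
    push_cast
    rw [GaussianInt.intCast_re, GaussianInt.intCast_re, GaussianInt.intCast_im,
      GaussianInt.intCast_im, ← hre, ← hi]
    ring
  have e4 : 2 * r * a2 = -(a1 * p2.norm) := by
    have : 2 * (r : ℝ) * a2 = -(a1 * p2.norm) := by rw [e3, hv1]; ring
    exact_mod_cast this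
  have hb1 := Int.gcd_eq_gcd_ab a2 a1
  have hb2 := Int.gcd_eq_gcd_ab (Int.gcd a2 a1) a0
  rw [hgcd] at hb2
  have hdvd : a2 ∣ p2.norm := by
    set x := Int.gcdA a2 a1
    set y := Int.gcdB a2 a1
    set z := Int.gcdA (Int.gcd a2 a1) a0
    set t := Int.gcdB (Int.gcd a2 a1) a0
    refine ⟨x * z * p2.norm - 2 * r * y * z + p1.norm * t, ?_⟩
    have h5 : (1 : ℤ) = (a2 * x + a1 * y) * z + a0 * t := by
      rw [← hb1]; exact_mod_cast hb2
    calc p2.norm = p2.norm * ((a2 * x + a1 * y) * z + a0 * t) := by rw [← h5, mul_one]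
      _ = a2 * x * z * p2.norm + (a1 * p2.norm) * (y * z) + (p2.norm * a0) * t := by ring
      _ = a2 * x * z * p2.norm + (-(2 * r * a2)) * (y * z) + (p1.norm * a2) * t := by
          rw [e4, ← e2]; ring
      _ = a2 * (x * z * p2.norm - 2 * r * y * z + p1.norm * t) := by ring
  obtain ⟨c, hc⟩ := hdvd
  have hc1 : 1 ≤ c := by
    rw [hc] at hn2
    by_contra hcon
    push Not at hcon
    have : a2 * c ≤ 0 := mul_nonpos_of_nonneg_of_nonpos h2.le (by omega)
    omega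
  have ha0 : 0 ≤ a0 := by
    have : (0 : ℝ) ≤ a0 := by
      rw [hv2]
      have : (0 : ℝ) < a2 := by exact_mod_cast h2
      have := Complex.normSq_nonneg α
      positivity
    exact_mod_cast this
  have e5 : p1.norm = c * a0 := by
    have : p1.norm * a2 = (c * a0) * a2 := by rw [e2, hc]; ring
    exact mul_right_cancel₀ h2.ne' this
  rw [e5]
  nlinarith

/-- Separation of lattice points with the same last digits. -/
theorem separation {a2 a1 a0 : ℤ} {α : ℂ} (hα : ∃ u v : ℚ, v ≠ 0 ∧ α = u + v * I)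
    (h2 : 0 < a2) (hgcd : Int.gcd (Int.gcd a2 a1) a0 = 1)
    (hpoly : (a2 : ℂ) * α ^ 2 + a1 * α + a0 = 0) :
    ∃ c : ℝ, 0 < c ∧ ∀ (j : ℕ) (M : ℂ), M ∈ Lam a2 a1 α → M ≠ 0 → M / α ^ j ∈ Lam a2 a1 α →
      c * (a0.natAbs : ℝ) ^ j ≤ ‖M‖ ^ 2 := by
  obtain ⟨u, v, hv, hαe⟩ := hα
  have him : α.im ≠ 0 := by
    rw [hαe]; simpa using hv
  have hα0 : α ≠ 0 := by
    rintro rfl
    simp at him
  obtain ⟨p1, p2, hp2, hcop, hp⟩ := coprime_rep α u v hαe
  have hnorm := norm_facts him h2 hgcd hpoly p1 p2 hp2 hp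
  obtain ⟨hv1, hv2⟩ := vieta him hpoly
  have ha0 : 0 ≤ a0 := by
    have : (0 : ℝ) ≤ a0 := by
      rw [hv2]
      have : (0 : ℝ) < a2 := by exact_mod_cast h2
      have := Complex.normSq_nonneg α
      positivity
    exact_mod_cast this
  have hA : ((a0.natAbs : ℕ) : ℝ) = a0 := by
    rw [Nat.cast_natAbs, abs_of_nonneg ha0]
  have hn2 : 0 < p2.norm := GaussianInt.norm_pos.2 hp2
  have hn2' : (0 : ℝ) < p2.norm := by exact_mod_cast hn2
  have hlat : ∀ z ∈ Lam a2 a1 α, ∃ g : GaussianInt, (p2 : ℂ) * z = g := by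
    rintro z ⟨m, n, rfl⟩
    refine ⟨p2 * m * a2 + n * (a2 * p1 + a1 * p2), ?_⟩
    simp only [map_add, map_mul, map_intCast]
    rw [← hp]
    ring
  refine ⟨1 / p2.norm, by positivity, ?_⟩
  intro j M hM hM0 hMj
  obtain ⟨g, hg⟩ := hlat M hM
  obtain ⟨g', hg'⟩ := hlat _ hMj
  have hrel : g * p2 ^ j = g' * p1 ^ j := by
    apply GaussianInt.toComplex_inj.1
    rw [map_mul, map_mul, map_pow, map_pow, ← hg, ← hg', ← hp, mul_pow]
    field_simp
  have hd : p1 ^ j ∣ g := by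
    have h1 : p1 ^ j ∣ g * p2 ^ j := by rw [hrel]; exact dvd_mul_left _ _
    exact (hcop.pow (m := j) (n := j)).dvd_of_dvd_mul_right h1
  obtain ⟨h, hh⟩ := hd
  have hg0 : g ≠ 0 := by
    rintro rfl
    have hz : (p2 : ℂ) * M = 0 := by rw [hg]; simp
    rcases mul_eq_zero.1 hz with h0 | h0
    · exact hp2 (GaussianInt.toComplex_eq_zero.1 h0)
    · exact hM0 h0
  have hh0 : h ≠ 0 := by
    rintro rfl
    rw [mul_zero] at hh
    exact hg0 hh
  have hng : a0 ^ j ≤ g.norm := by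
    rw [hh, Zsqrtd.norm_mul]
    have h1 : 1 ≤ h.norm := GaussianInt.norm_pos.2 hh0
    have h3 : (p1 ^ j).norm = p1.norm ^ j := map_pow (Zsqrtd.normMonoidHom (d := -1)) p1 j
    rw [h3]
    have h4 : a0 ^ j ≤ p1.norm ^ j := pow_le_pow_left₀ ha0 hnorm j
    have h5 : 0 ≤ p1.norm ^ j := le_trans (pow_nonneg ha0 j) h4
    nlinarith
  have hfin : (g.norm : ℝ) = p2.norm * ‖M‖ ^ 2 := by
    rw [GaussianInt.intCast_real_norm, GaussianInt.intCast_real_norm, ← hg, map_mul,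
      Complex.normSq_eq_norm_sq M]
  have : ((a0 : ℝ)) ^ j ≤ p2.norm * ‖M‖ ^ 2 := by
    rw [← hfin]; exact_mod_cast hng
  rw [hA, one_div, inv_mul_le_iff₀ hn2']
  exact this

end Pool.Agent.R902.GN
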