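import Mathlib

/-! Packing bounds in the plane. -/

namespace Pool.Agent.R902.GN

open Finset MeasureTheory Metric
open scoped ENNReal NNReal

theorem packing {δ R : ℝ} (hδ : 0 < δ) (hR : 0 ≤ R) (S : Finset ℂ)
    (hsep : ∀ s ∈ S, ∀ s' ∈ S, s ≠ s' → δ ≤ ‖s - s'‖) (hS : ∀ s ∈ S, ‖s‖ ≤ R) :
    (S.card : ℝ) ≤ (1 + 2 * R / δ) ^ 2 := by
  have h1 : volume (⋃ s ∈ S, ball s (δ / 2)) = ∑ s ∈ S, volume (ball s (δ / 2)) := by
    apply measure_biUnion_finset
    · intro s hs s' hs' hne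
      apply Metric.ball_disjoint_ball
      rw [dist_eq_norm]
      have := hsep s hs s' hs' hne
      linarith
    · intro s _
      exact measurableSet_ball
  have h2 : volume (⋃ s ∈ S, ball s (δ / 2)) ≤ volume (ball (0 : ℂ) (R + δ / 2)) := by
    apply measure_mono
    intro z hz
    simp only [Set.mem_iUnion, mem_ball] at hz
    obtain ⟨s, hs, hz⟩ := hz
    rw [mem_ball, dist_zero_right]
    have := hS s hs
    calc ‖z‖ = ‖(z - s) + s‖ := by ring_nf
      _ ≤ ‖z - s‖ + ‖s‖ := norm_add_le _ _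
      _ < R + δ / 2 := by rw [dist_eq_norm] at hz; linarith
  rw [h1] at h2
  simp only [Complex.volume_ball, Finset.sum_const, nsmul_eq_mul] at h2
  have h3 : ((S.card : ℝ) * ((δ / 2) ^ 2 * Real.pi)) ≤ (R + δ / 2) ^ 2 * Real.pi := by
    have e1 : ((S.card : ℝ≥0∞) * (ENNReal.ofReal (δ / 2) ^ 2 * (NNReal.pi : ℝ≥0∞)))
        = ENNReal.ofReal ((S.card : ℝ) * ((δ / 2) ^ 2 * Real.pi)) := by
      rw [ENNReal.ofReal_mul (by positivity), ENNReal.ofReal_mul (by positivity),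
        ENNReal.ofReal_natCast, ENNReal.ofReal_pow (by positivity)]
      congr 2
      rw [← NNReal.coe_real_pi, ENNReal.ofReal_coe_nnreal]
    have e2 : (ENNReal.ofReal (R + δ / 2) ^ 2 * (NNReal.pi : ℝ≥0∞))
        = ENNReal.ofReal ((R + δ / 2) ^ 2 * Real.pi) := by
      rw [ENNReal.ofReal_mul (by positivity), ENNReal.ofReal_pow (by positivity)]
      congr 1
      rw [← NNReal.coe_real_pi, ENNReal.ofReal_coe_nnreal]
    rw [e1, e2] at h2
    exact (ENNReal.ofReal_le_ofReal_iff (by positivity)).1 h2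
  have h4 : (S.card : ℝ) * (δ / 2) ^ 2 ≤ (R + δ / 2) ^ 2 := by
    have hpi := Real.pi_pos
    have : ((S.card : ℝ) * (δ / 2) ^ 2) * Real.pi ≤ (R + δ / 2) ^ 2 * Real.pi := by
      rw [mul_assoc]; exact h3
    exact le_of_mul_le_mul_right this hpi
  have h5 : (1 + 2 * R / δ) ^ 2 = (R + δ / 2) ^ 2 / (δ / 2) ^ 2 := by
    field_simp
    ring
  rw [h5, le_div_iff₀ (by positivity)]
  exact h4

theorem cover {δ R r : ℝ} (hδ : 0 < δ) (hR : 0 ≤ R) (hr : 0 ≤ r) (β : ℂ) (P : Set ℂ)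
    (hsep : ∀ s ∈ P, ∀ s' ∈ P, s ≠ s' → δ ≤ ‖s - s'‖) (hP : ∀ s ∈ P, ‖s‖ ≤ R) :
    volume (⋃ p ∈ P, closedBall (β * p) r)
      ≤ ENNReal.ofReal ((1 + 2 * R / δ) ^ 2 * (r ^ 2 * Real.pi)) := by
  classical
  have hfin : P.Finite := by
    by_contra hinf
    have hinf : P.Infinite := hinf
    obtain ⟨n, hn⟩ := exists_nat_gt ((1 + 2 * R / δ) ^ 2)
    obtain ⟨S, hS, hcard⟩ := hinf.exists_subset_card_eq n
    have := packing hδ hR S (fun s hs s' hs' => hsep s (hS hs) s' (hS hs'))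
      (fun s hs => hP s (hS hs))
    rw [hcard] at this
    linarith
  have hcard := packing hδ hR hfin.toFinset
    (fun s hs s' hs' => hsep s (hfin.mem_toFinset.1 hs) s' (hfin.mem_toFinset.1 hs'))
    (fun s hs => hP s (hfin.mem_toFinset.1 hs))
  have h1 : (⋃ p ∈ P, closedBall (β * p) r) = ⋃ p ∈ hfin.toFinset, closedBall (β * p) r := by
    ext z; simp
  rw [h1]
  refine (measure_biUnion_finset_le _ _).trans ?_
  simp only [Complex.volume_closedBall, Finset.sum_const, nsmul_eq_mul]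
  have e1 : ((hfin.toFinset.card : ℝ≥0∞) * (ENNReal.ofReal r ^ 2 * (NNReal.pi : ℝ≥0∞)))
      = ENNReal.ofReal ((hfin.toFinset.card : ℝ) * (r ^ 2 * Real.pi)) := by
    rw [ENNReal.ofReal_mul (by positivity), ENNReal.ofReal_mul (by positivity),
      ENNReal.ofReal_natCast, ENNReal.ofReal_pow (by positivity)]
    congr 2
    rw [← NNReal.coe_real_pi, ENNReal.ofReal_coe_nnreal]
  rw [e1]
  apply ENNReal.ofReal_le_ofReal
  have hpi := Real.pi_pos
  apply mul_le_mul_of_nonneg_right hcard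
  positivity

end Pool.Agent.R902.GN
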