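import Pool.Agent.R902.GN.A
import Pool.Agent.R902.GN.B
import Pool.Agent.R902.GN.C

/-! Measure of the set of points with a bad block of digits. -/

namespace Pool.Agent.R902.GN

open Finset MeasureTheory Metric
open scoped ENNReal NNReal

variable {A : ℕ}

/-- initial segments of an expansion, as lattice points -/
def pre (α : ℂ) (e : ℕ → Fin A) (t : ℕ) : ℂ := ∑ i ∈ range (t + 1), ((e i : ℕ) : ℂ) * α ^ (t - i)

/-- `x = ∑ e_t α^(k-t)` with all initial segments in the lattice -/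
structure IsExp (Λ : Set ℂ) (α x : ℂ) (k : ℤ) (e : ℕ → Fin A) : Prop where
  mem : ∀ t, pre α e t ∈ Λ
  sum : HasSum (fun t : ℕ => ((e t : ℕ) : ℂ) * α ^ (k - t)) x

/-- the block of digits in positions `t-j+1, ..., t` -/
def blk (e : ℕ → Fin A) (t j : ℕ) : Fin j → Fin A := fun i => e (t - j + 1 + i)

theorem pre_block (α : ℂ) (e : ℕ → Fin A) {t j : ℕ} (h : j ≤ t) :
    pre α e t = α ^ j * pre α e (t - j)
      + ∑ i ∈ range j, ((e (t - j + 1 + i) : ℕ) : ℂ) * α ^ (j - 1 - i) := by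
  unfold pre
  have h1 : t + 1 = (t - j + 1) + j := by omega
  rw [h1, Finset.sum_range_add, Finset.mul_sum]
  congr 1
  · apply Finset.sum_congr rfl
    intro i hi
    rw [Finset.mem_range] at hi
    have : t - i = j + (t - j - i) := by omega
    have h2 : t - j + j - i = j + (t - j - i) := by omega
    rw [this, pow_add]; ring
  · apply Finset.sum_congr rfl
    intro i hi
    rw [Finset.mem_range] at hi
    congr 2
    omega

theorem pre_sub_pre (α : ℂ) (e e' : ℕ → Fin A) {t j : ℕ} (h : j ≤ t)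
    (hb : blk e t j = blk e' t j) :
    pre α e t - pre α e' t = α ^ j * (pre α e (t - j) - pre α e' (t - j)) := by
  rw [pre_block α e h, pre_block α e' h]
  have : ∑ i ∈ range j, ((e (t - j + 1 + i) : ℕ) : ℂ) * α ^ (j - 1 - i)
      = ∑ i ∈ range j, ((e' (t - j + 1 + i) : ℕ) : ℂ) * α ^ (j - 1 - i) := by
    apply Finset.sum_congr rfl
    intro i hi
    rw [Finset.mem_range] at hi
    have := congrFun hb ⟨i, hi⟩
    simp only [blk] at this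
    rw [this]
  rw [this]; ring

theorem tail_bound {Λ : Set ℂ} {α x : ℂ} {k : ℤ} {e : ℕ → Fin A} (hα : 1 < ‖α‖)
    (h : HasSum (fun t : ℕ => ((e t : ℕ) : ℂ) * α ^ (k - t)) x) (t : ℕ) :
    ‖x - α ^ (k - t) * pre α e t‖ ≤ A / (‖α‖ - 1) * ‖α‖ ^ (k - t) := by
  have hα0 : α ≠ 0 := by rintro rfl; simp at hα; linarith
  have hn0 : ‖α‖ ≠ 0 := by positivity
  have h1 := (hasSum_nat_add_iff' (t + 1)).2 h
  have h2 : ∑ i ∈ range (t + 1), ((e i : ℕ) : ℂ) * α ^ (k - (i : ℤ))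
      = α ^ (k - t) * pre α e t := by
    unfold pre
    rw [Finset.mul_sum]
    apply Finset.sum_congr rfl
    intro i hi
    rw [Finset.mem_range] at hi
    have e1 : α ^ (k - (i : ℤ)) = α ^ (k - t) * α ^ (t - i) := by
      rw [← zpow_natCast α (t - i), ← zpow_add₀ hα0]
      congr 1
      have : ((t - i : ℕ) : ℤ) = t - i := by omega
      rw [this]; ring
    rw [e1]; ring
  rw [h2] at h1
  have hg : HasSum (fun n : ℕ => (A : ℝ) * ‖α‖ ^ (k - t - 1) * (‖α‖⁻¹) ^ n)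
      ((A : ℝ) * ‖α‖ ^ (k - t - 1) * (1 - ‖α‖⁻¹)⁻¹) := by
    apply HasSum.mul_left
    apply hasSum_geometric_of_lt_one (by positivity)
    exact inv_lt_one_of_one_lt₀ hα
  have h3 := HasSum.norm_le_of_bounded h1 hg (by
    intro n
    rw [norm_mul, norm_zpow, Complex.norm_natCast]
    have e2 : ‖α‖ ^ (k - ((n + (t + 1) : ℕ) : ℤ)) = ‖α‖ ^ (k - t - 1) * (‖α‖⁻¹) ^ n := by
      rw [inv_pow, ← zpow_natCast, ← zpow_neg, ← zpow_add₀ hn0]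
      congr 1
      push_cast
      ring
    rw [e2, mul_assoc]
    apply mul_le_mul_of_nonneg_right _ (by positivity)
    exact_mod_cast (e (n + (t + 1))).2.le)
  refine h3.trans (le_of_eq ?_)
  have h4 : ‖α‖ ^ (k - t) = ‖α‖ ^ (k - t - 1) * ‖α‖ := by
    rw [← zpow_add_one₀ hn0]; congr 1; ring
  rw [h4]
  have h5 : ‖α‖ - 1 ≠ 0 := by linarith
  field_simp

/-- the set of points having a bad block -/
def Bad (Λ : Set ℂ) (α : ℂ) (k : ℤ) (ρ : ℝ) {ℓ : ℕ} (w : Fin ℓ → Fin A) (ε : ℝ) (t j : ℕ) :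
    Set ℂ :=
  {x | ‖x‖ ≤ ρ ∧ ∃ e : ℕ → Fin A, IsExp Λ α x k e ∧ blk e t j ∈ badStr j w ε}

theorem volume_bad {Λ : Set ℂ} {α : ℂ} (hα : 1 < ‖α‖) (hA : 0 < A)
    (hsub : ∀ z ∈ Λ, ∀ z' ∈ Λ, z - z' ∈ Λ) {c : ℝ} (hc : 0 < c)
    (hsepΛ : ∀ (j : ℕ) (M : ℂ), M ∈ Λ → M ≠ 0 → M / α ^ j ∈ Λ → c * (A : ℝ) ^ j ≤ ‖M‖ ^ 2)
    {s : ℕ} (hs : 0 < s) (hAs : (A : ℝ) ≤ ‖α‖ ^ (2 * s)) (k : ℤ) {ρ : ℝ} (hρ : 0 ≤ ρ) {ℓ : ℕ}
    (w : Fin ℓ → Fin A) {ε : ℝ} (hε : 0 < ε) :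
    ∃ K : ℝ, 0 ≤ K ∧ ∀ j : ℕ, 0 < j →
      volume (Bad Λ α k ρ w ε (s * j) j) ≤ ENNReal.ofReal (K / j) := by
  have hα0 : α ≠ 0 := by rintro rfl; simp at hα; linarith
  have hn0 : 0 < ‖α‖ := by positivity
  set C1 : ℝ := A / (‖α‖ - 1) with hC1
  have hC1' : 0 ≤ C1 := by
    apply div_nonneg (by positivity); linarith
  set C2 : ℝ := 1 + 2 * (ρ * ‖α‖ ^ (-k) + C1) / Real.sqrt c with hC2
  have hC2' : 0 ≤ C2 := by positivity
  refine ⟨4 * ℓ / ε ^ 2 * (C2 ^ 2 * (C1 ^ 2 * ‖α‖ ^ (2 * k) * Real.pi)), by positivity, ?_⟩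
  intro j hj
  set t := s * j with ht
  have hjt : j ≤ t := by rw [ht]; exact Nat.le_mul_of_pos_left j hs
  have hAR : (0 : ℝ) < A := by exact_mod_cast hA
  set δ : ℝ := Real.sqrt (c * (A : ℝ) ^ j) with hδ
  have hδ0 : 0 < δ := Real.sqrt_pos.2 (by positivity)
  set R : ℝ := (ρ * ‖α‖ ^ (-k) + C1) * ‖α‖ ^ t with hR
  have hR0 : 0 ≤ R := by positivity
  set r : ℝ := C1 * ‖α‖ ^ (k - t) with hr
  have hr0 : 0 ≤ r := by positivity
  set P : (Fin j → Fin A) → Set ℂ := fun u => {p | ∃ x : ℂ, ∃ e : ℕ → Fin A, ‖x‖ ≤ ρ ∧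
    IsExp Λ α x k e ∧ blk e t j = u ∧ p = pre α e t} with hPdef
  have hsep : ∀ u, ∀ p ∈ P u, ∀ p' ∈ P u, p ≠ p' → δ ≤ ‖p - p'‖ := by
    rintro u p ⟨x, e, _, he, hb, rfl⟩ p' ⟨x', e', _, he', hb', rfl⟩ hne
    have h1 := pre_sub_pre α e e' hjt (hb.trans hb'.symm)
    have h2 := hsepΛ j (pre α e t - pre α e' t) (hsub _ (he.mem t) _ (he'.mem t))
      (sub_ne_zero.2 hne) (by
        rw [h1, mul_div_cancel_left₀ _ (pow_ne_zero _ hα0)]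
        exact hsub _ (he.mem _) _ (he'.mem _))
    rw [hδ]
    exact Real.sqrt_le_iff.2 ⟨norm_nonneg _, h2⟩
  have hbd : ∀ u, ∀ p ∈ P u, ‖p‖ ≤ R := by
    rintro u p ⟨x, e, hx, he, hb, rfl⟩
    have h1 := tail_bound (Λ := Λ) hα he.sum t
    have h2 : pre α e t = α ^ ((t : ℤ) - k) * x - α ^ ((t : ℤ) - k) * (x - α ^ (k - t) * pre α e t) := by
      have : α ^ ((t : ℤ) - k) * α ^ (k - t) = 1 := by
        rw [← zpow_add₀ hα0]; simp
      calc pre α e t = (α ^ ((t : ℤ) - k) * α ^ (k - t)) * pre α e t := by rw [this, one_mul]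
        _ = _ := by ring
    rw [h2]
    refine (norm_sub_le _ _).trans ?_
    rw [norm_mul, norm_mul, norm_zpow]
    have e1 : ‖α‖ ^ ((t : ℤ) - k) = ‖α‖ ^ (-k) * ‖α‖ ^ t := by
      rw [← zpow_natCast ‖α‖ t, ← zpow_add₀ hn0.ne']; congr 1; ring
    have e2 : ‖α‖ ^ ((t : ℤ) - k) * ‖α‖ ^ (k - t) = 1 := by
      rw [← zpow_add₀ hn0.ne']; simp
    have e3 : ‖α‖ ^ ((t : ℤ) - k) * ‖x - α ^ (k - ↑t) * pre α e t‖ ≤ C1 := by
      calc ‖α‖ ^ ((t : ℤ) - k) * ‖x - α ^ (k - ↑t) * pre α e t‖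
          ≤ ‖α‖ ^ ((t : ℤ) - k) * (C1 * ‖α‖ ^ (k - t)) :=
            mul_le_mul_of_nonneg_left h1 (by positivity)
        _ = C1 * (‖α‖ ^ ((t : ℤ) - k) * ‖α‖ ^ (k - t)) := by ring
        _ = C1 := by rw [e2, mul_one]
    have e4 : ‖α‖ ^ ((t : ℤ) - k) * ‖x‖ ≤ ρ * ‖α‖ ^ (-k) * ‖α‖ ^ t := by
      rw [e1]
      have : 0 ≤ ‖α‖ ^ (-k) * ‖α‖ ^ t := by positivity
      nlinarith
    have e5 : C1 ≤ C1 * ‖α‖ ^ t := by
      have : 1 ≤ ‖α‖ ^ t := one_le_pow₀ hα.le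
      nlinarith
    rw [hR]
    linarith
  have hcov : Bad Λ α k ρ w ε t j ⊆ ⋃ u ∈ badStr j w ε, ⋃ p ∈ P u, closedBall (α ^ (k - t) * p) r := by
    rintro x ⟨hx, e, he, hb⟩
    simp only [Set.mem_iUnion]
    refine ⟨blk e t j, hb, pre α e t, ⟨x, e, hx, he, rfl, rfl⟩, ?_⟩
    rw [mem_closedBall, dist_eq_norm]
    exact tail_bound (Λ := Λ) hα he.sum t
  refine (measure_mono hcov).trans ?_
  refine (measure_biUnion_finset_le _ _).trans ?_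
  refine (Finset.sum_le_sum (fun u _ => cover hδ0 hR0 hr0 (α ^ (k - t)) (P u) (hsep u) (hbd u))).trans ?_
  rw [Finset.sum_const, nsmul_eq_mul]
  rw [← ENNReal.ofReal_natCast, ← ENNReal.ofReal_mul (by positivity)]
  apply ENNReal.ofReal_le_ofReal
  have hcard := card_badStr hA hj w hε
  -- estimate `1 + 2R/δ`
  have hδe : δ = Real.sqrt c * Real.sqrt ((A : ℝ) ^ j) := by
    rw [hδ, Real.sqrt_mul hc.le]
  have hsA : 0 < Real.sqrt ((A : ℝ) ^ j) := Real.sqrt_pos.2 (by positivity)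
  have hsc : 0 < Real.sqrt c := Real.sqrt_pos.2 hc
  have hAt : Real.sqrt ((A : ℝ) ^ j) ≤ ‖α‖ ^ t := by
    apply Real.sqrt_le_iff.2
    refine ⟨by positivity, ?_⟩
    calc (A : ℝ) ^ j ≤ (‖α‖ ^ (2 * s)) ^ j := pow_le_pow_left₀ hAR.le hAs j
      _ = (‖α‖ ^ t) ^ 2 := by rw [← pow_mul, ← pow_mul, ht]; congr 1; ring
  have hX : 1 + 2 * R / δ ≤ C2 * (‖α‖ ^ t / Real.sqrt ((A : ℝ) ^ j)) := by
    have h1 : 1 ≤ ‖α‖ ^ t / Real.sqrt ((A : ℝ) ^ j) := (one_le_div hsA).2 hAt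
    have h2 : 2 * R / δ = (2 * (ρ * ‖α‖ ^ (-k) + C1) / Real.sqrt c)
        * (‖α‖ ^ t / Real.sqrt ((A : ℝ) ^ j)) := by
      rw [hR, hδe]; field_simp
    rw [h2, hC2, add_mul, one_mul]
    linarith
  have hX0 : 0 ≤ 1 + 2 * R / δ := by positivity
  have hX2 : (1 + 2 * R / δ) ^ 2 ≤ C2 ^ 2 * (‖α‖ ^ (2 * t) / (A : ℝ) ^ j) := by
    calc (1 + 2 * R / δ) ^ 2 ≤ (C2 * (‖α‖ ^ t / Real.sqrt ((A : ℝ) ^ j))) ^ 2 :=
          pow_le_pow_left₀ hX0 hX 2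
      _ = C2 ^ 2 * (‖α‖ ^ (2 * t) / (A : ℝ) ^ j) := by
          rw [mul_pow, div_pow, Real.sq_sqrt (by positivity), ← pow_mul, mul_comm t 2]
  have hr2 : r ^ 2 = C1 ^ 2 * (‖α‖ ^ (2 * k) / ‖α‖ ^ (2 * t)) := by
    rw [hr, mul_pow]
    congr 1
    rw [eq_div_iff (by positivity), ← zpow_natCast ‖α‖ (2 * t), ← zpow_natCast, ← zpow_mul,
      ← zpow_add₀ hn0.ne']
    congr 1
    push_cast; ring
  have hpi := Real.pi_pos
  calc ((badStr j w ε).card : ℝ) * ((1 + 2 * R / δ) ^ 2 * (r ^ 2 * Real.pi))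
      ≤ ((A : ℝ) ^ j * (4 * ℓ / (ε ^ 2 * j)))
        * ((C2 ^ 2 * (‖α‖ ^ (2 * t) / (A : ℝ) ^ j)) * (r ^ 2 * Real.pi)) := by
        apply mul_le_mul hcard _ (by positivity) (by positivity)
        apply mul_le_mul_of_nonneg_right hX2 (by positivity)
    _ = 4 * ℓ / ε ^ 2 * (C2 ^ 2 * (C1 ^ 2 * ‖α‖ ^ (2 * k) * Real.pi)) / j := by
        rw [hr2]
        have h1 : (A : ℝ) ^ j ≠ 0 := by positivity
        have h2 : ‖α‖ ^ (2 * t) ≠ 0 := by positivity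
        field_simp

end Pool.Agent.R902.GN
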