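import Pool.Agent.R902.GN.D

/-! Frequencies from good blocks, and the almost everywhere statement. -/

namespace Pool.Agent.R902.GN

open Finset MeasureTheory Metric Filter Topology
open scoped ENNReal NNReal

variable {A : ℕ}

/-- occurrence in an infinite sequence -/
def OccI {ℓ : ℕ} (w : Fin ℓ → Fin A) (e : ℕ → Fin A) (m : ℕ) : Prop := ∀ i : Fin ℓ, e (m + i) = w i

instance {ℓ : ℕ} (w : Fin ℓ → Fin A) (e : ℕ → Fin A) (m : ℕ) : Decidable (OccI w e m) := by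
  unfold OccI; infer_instance

/-- centred indicator -/
noncomputable def ci {ℓ : ℕ} (w : Fin ℓ → Fin A) (e : ℕ → Fin A) (m : ℕ) : ℝ :=
  (if OccI w e m then 1 else 0) - ((1 : ℝ) / A) ^ ℓ

theorem p_bd (hA : 0 < A) (ℓ : ℕ) : 0 ≤ ((1 : ℝ) / A) ^ ℓ ∧ ((1 : ℝ) / A) ^ ℓ ≤ 1 := by
  refine ⟨by positivity, ?_⟩
  apply pow_le_one₀ (by positivity)
  rw [div_le_one (by exact_mod_cast hA)]
  exact_mod_cast hA

theorem abs_ci_le {ℓ : ℕ} (hA : 0 < A) (w : Fin ℓ → Fin A) (e : ℕ → Fin A) (m : ℕ) :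
    |ci w e m| ≤ 1 := by
  obtain ⟨h1, h2⟩ := p_bd hA ℓ
  unfold ci
  split_ifs <;> rw [abs_le] <;> constructor <;> linarith

/-- partial sums -/
noncomputable def Sm {ℓ : ℕ} (w : Fin ℓ → Fin A) (e : ℕ → Fin A) (n : ℕ) : ℝ :=
  ∑ m ∈ range n, ci w e m

theorem Sm_add {ℓ : ℕ} (hA : 0 < A) (w : Fin ℓ → Fin A) (e : ℕ → Fin A) (m d : ℕ) :
    |Sm w e (m + d) - Sm w e m| ≤ d := by
  unfold Sm
  rw [Finset.sum_range_add, add_sub_cancel_left]
  refine (Finset.abs_sum_le_sum_abs _ _).trans ?_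
  refine (Finset.sum_le_sum (fun i _ => abs_ci_le hA w e (m + i))).trans ?_
  simp

theorem Sm_diff {ℓ : ℕ} (hA : 0 < A) (w : Fin ℓ → Fin A) (e : ℕ → Fin A) {m n : ℕ} (h : m ≤ n) :
    |Sm w e n - Sm w e m| ≤ (n : ℝ) - m := by
  obtain ⟨d, rfl⟩ := Nat.exists_eq_add_of_le h
  have := Sm_add hA w e m d
  push_cast
  linarith

theorem block_good {ℓ : ℕ} (hA : 0 < A) (w : Fin ℓ → Fin A) (e : ℕ → Fin A) {t j : ℕ} (h : j ≤ t)
    {ε : ℝ} (hε : 0 < ε) (hg : blk e t j ∉ badStr j w ε) :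
    |Sm w e t - Sm w e (t - j)| ≤ ε * j + (ℓ + 3) := by
  by_cases hjl : j + 1 < ℓ
  · have h1 := Sm_diff hA w e (Nat.sub_le t j)
    have h2 : (t : ℝ) - (t - j : ℕ) = j := by
      rw [Nat.cast_sub h]; ring
    rw [h2] at h1
    have h3 : (j : ℝ) ≤ ℓ := by exact_mod_cast (by omega : j ≤ ℓ)
    have h4 : 0 ≤ ε * j := by positivity
    linarith
  · push Not at hjl
    simp only [badStr, Finset.mem_filter, Finset.mem_univ, true_and, not_lt] at hg
    have h1 : ∑ m ∈ range (j + 1 - ℓ), (ind w (blk e t j) m - ((1 : ℝ) / A) ^ ℓ)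
        = Sm w e (t - j + 1 + (j + 1 - ℓ)) - Sm w e (t - j + 1) := by
      unfold Sm
      rw [Finset.sum_range_add, add_sub_cancel_left]
      apply Finset.sum_congr rfl
      intro m hm
      rw [Finset.mem_range] at hm
      unfold ind ci
      congr 1
      have : Occ w (blk e t j) m ↔ OccI w e (t - j + 1 + m) := by
        unfold Occ OccI blk
        constructor
        · intro hh i
          have := hh i (by have := i.2; omega)
          simp only at this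
          rw [← this]; congr 1; omega
        · intro hh i hi
          rw [← hh i]
          congr 1
          simp only
          omega
      by_cases hc : Occ w (blk e t j) m
      · rw [if_pos hc, if_pos (this.1 hc)]
      · rw [if_neg hc, if_neg (fun h => hc (this.2 h))]
    rw [h1] at hg
    have h2 := Sm_add hA w e (t - j) 1
    have e3 : t - j + 1 + (j + 1 - ℓ) = t + 2 - ℓ := by omega
    rw [e3] at hg
    have h4 : |Sm w e t - Sm w e (t + 2 - ℓ)| ≤ ℓ + 2 := by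
      rcases le_total (t + 2 - ℓ) t with h | h
      · have := Sm_diff hA w e h
        have h5 : (t : ℝ) ≤ ((t + 2 - ℓ : ℕ) : ℝ) + ℓ := by
          exact_mod_cast (by omega : t ≤ (t + 2 - ℓ) + ℓ)
        linarith
      · have := Sm_diff hA w e h
        rw [abs_sub_comm] at this
        have h5 : ((t + 2 - ℓ : ℕ) : ℝ) ≤ (t : ℝ) + 2 := by
          exact_mod_cast (by omega : t + 2 - ℓ ≤ t + 2)
        have h6 : (0 : ℝ) ≤ ℓ := by positivity
        linarith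
    have e4 : Sm w e t - Sm w e (t - j) = (Sm w e t - Sm w e (t + 2 - ℓ))
        + (Sm w e (t + 2 - ℓ) - Sm w e (t - j + 1)) + (Sm w e (t - j + 1) - Sm w e (t - j)) := by
      ring
    rw [e4]
    have h7 := abs_add_le ((Sm w e t - Sm w e (t + 2 - ℓ))
        + (Sm w e (t + 2 - ℓ) - Sm w e (t - j + 1))) (Sm w e (t - j + 1) - Sm w e (t - j))
    have h8 := abs_add_le (Sm w e t - Sm w e (t + 2 - ℓ))
        (Sm w e (t + 2 - ℓ) - Sm w e (t - j + 1))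
    push_cast at h2
    linarith

theorem Sm_small {ℓ : ℕ} (hA : 0 < A) (w : Fin ℓ → Fin A) (e : ℕ → Fin A) {s : ℕ} (hs : 0 < s)
    {ε : ℝ} (hε : 0 < ε)
    (hgood : ∀ᶠ i : ℕ in atTop, blk e (s * i ^ 2) (i ^ 2) ∉ badStr (i ^ 2) w ε) :
    ∃ n0 : ℕ, ∀ n : ℕ, |Sm w e n| ≤ 2 * ε * n + n0 := by
  obtain ⟨i1, hi1⟩ := eventually_atTop.1 hgood
  obtain ⟨i2, hi2⟩ := exists_nat_gt ((ℓ + 3 + 3 * s : ℝ) / ε)
  set i0 := max (max i1 i2) 1 with hi0
  refine ⟨s * i0 ^ 2, ?_⟩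
  have hsR : (0 : ℝ) < s := by exact_mod_cast hs
  intro n
  induction n using Nat.strong_induction_on with
  | _ n ih =>
  by_cases hn : n < s * i0 ^ 2
  · have h1 := Sm_diff hA w e (Nat.zero_le n)
    have h0 : Sm w e 0 = 0 := by simp [Sm]
    rw [h0] at h1
    simp only [sub_zero, Nat.cast_zero] at h1
    have h2 : (n : ℝ) ≤ ((s * i0 ^ 2 : ℕ) : ℝ) := by exact_mod_cast hn.le
    have h3 : 0 ≤ 2 * ε * n := by positivity
    linarith
  · push Not at hn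
    set i := Nat.sqrt (n / s) with hi
    have hi_le : i ^ 2 ≤ n / s := Nat.sqrt_le' (n / s)
    have hi_lt : n / s < (i + 1) ^ 2 := Nat.lt_succ_sqrt' (n / s)
    have ht_le : s * i ^ 2 ≤ n := by
      calc s * i ^ 2 ≤ s * (n / s) := Nat.mul_le_mul_left s hi_le
        _ ≤ n := Nat.mul_div_le n s
    have hn_lt : n < s * (i + 1) ^ 2 := by
      rw [Nat.div_lt_iff_lt_mul hs] at hi_lt
      rw [mul_comm]; exact hi_lt
    have hii0 : i0 ≤ i := by
      rw [hi]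
      apply Nat.le_sqrt'.2
      rw [Nat.le_div_iff_mul_le hs, mul_comm]
      exact hn
    have hi1' : i1 ≤ i := by omega
    have hi2' : i2 ≤ i := by omega
    have hi3' : 1 ≤ i := by omega
    have hg := hi1 i hi1'
    have hjt : i ^ 2 ≤ s * i ^ 2 := Nat.le_mul_of_pos_left _ hs
    have hb := block_good hA w e hjt hε hg
    have hd := Sm_diff hA w e ht_le
    set n' := s * i ^ 2 - i ^ 2 with hn'
    have hn'lt : n' < n := by
      have : 1 ≤ i ^ 2 := Nat.one_le_pow _ _ hi3'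
      omega
    have hih := ih n' hn'lt
    have hn'R : (n' : ℝ) = s * (i : ℝ) ^ 2 - (i : ℝ) ^ 2 := by
      rw [hn', Nat.cast_sub hjt]; push_cast; ring
    have hnR : (s : ℝ) * (i : ℝ) ^ 2 ≤ n := by exact_mod_cast ht_le
    have hnR2 : (n : ℝ) ≤ s * ((i : ℝ) + 1) ^ 2 := by exact_mod_cast hn_lt.le
    have hiR : (1 : ℝ) ≤ i := by exact_mod_cast hi3'
    have hbig : (ℓ : ℝ) + 3 + s * (2 * i + 1) ≤ ε * (i : ℝ) ^ 2 := by
      have h1 : (ℓ + 3 + 3 * s : ℝ) / ε < i := lt_of_lt_of_le hi2 (by exact_mod_cast hi2')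
      rw [div_lt_iff₀ hε] at h1
      have h2 : (ℓ + 3 + 3 * s : ℝ) * i ≤ ε * (i : ℝ) ^ 2 := by nlinarith
      have h3 : (0 : ℝ) ≤ ℓ := by positivity
      nlinarith
    have h4 : |Sm w e n| ≤ |Sm w e n'| + ε * (i : ℝ) ^ 2 + (ℓ + 3) + s * (2 * i + 1) := by
      have e1 : Sm w e n = Sm w e n' + (Sm w e (s * i ^ 2) - Sm w e n')
          + (Sm w e n - Sm w e (s * i ^ 2)) := by ring
      rw [e1]
      have h5 := abs_add_le (Sm w e n' + (Sm w e (s * i ^ 2) - Sm w e n'))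
        (Sm w e n - Sm w e (s * i ^ 2))
      have h6 := abs_add_le (Sm w e n') (Sm w e (s * i ^ 2) - Sm w e n')
      push_cast at hb hd
      nlinarith
    have h7 : (n' : ℝ) ≤ n - (i : ℝ) ^ 2 := by rw [hn'R]; linarith
    have h8 : |Sm w e n| ≤ |Sm w e n'| + 2 * (ε * (i : ℝ) ^ 2) := by linarith
    have h9 : 2 * ε * (n' : ℝ) ≤ 2 * ε * (n - (i : ℝ) ^ 2) :=
      mul_le_mul_of_nonneg_left h7 (by positivity)
    linarith

theorem freq {ℓ : ℕ} (hA : 0 < A) (w : Fin ℓ → Fin A) (e : ℕ → Fin A) {s : ℕ} (hs : 0 < s)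
    (hgood : ∀ ε : ℝ, 0 < ε →
      ∀ᶠ i : ℕ in atTop, blk e (s * i ^ 2) (i ^ 2) ∉ badStr (i ^ 2) w ε) :
    Tendsto (fun n : ℕ => (((range n).filter (fun m => OccI w e m)).card : ℝ) / n) atTop
      (𝓝 (((1 : ℝ) / A) ^ ℓ)) := by
  have hcount : ∀ n : ℕ, (((range n).filter (fun m => OccI w e m)).card : ℝ)
      = Sm w e n + n * ((1 : ℝ) / A) ^ ℓ := by
    intro n
    unfold Sm ci
    rw [Finset.sum_sub_distrib, Finset.sum_const, Finset.card_range, nsmul_eq_mul,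
      ← Finset.sum_filter, Finset.sum_const, nsmul_eq_mul]
    ring
  rw [Metric.tendsto_atTop]
  intro η hη
  obtain ⟨n0, hn0⟩ := Sm_small hA w e hs (ε := η / 4) (by positivity) (hgood _ (by positivity))
  obtain ⟨N, hN⟩ := exists_nat_gt ((n0 : ℝ) / (η / 2))
  refine ⟨N + 1, fun n hn => ?_⟩
  have hnpos : (0 : ℝ) < n := by
    have : 0 < n := by omega
    exact_mod_cast this
  have hNn : (N : ℝ) ≤ n := by exact_mod_cast (by omega : N ≤ n)
  rw [Real.dist_eq, hcount]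
  have h1 : (Sm w e n + n * ((1 : ℝ) / A) ^ ℓ) / n - ((1 : ℝ) / A) ^ ℓ = Sm w e n / n := by
    field_simp; ring
  rw [h1, abs_div, abs_of_pos hnpos, div_lt_iff₀ hnpos]
  have h2 := hn0 n
  rw [div_lt_iff₀ (by positivity)] at hN
  have h3 : (N : ℝ) * (η / 2) ≤ n * (η / 2) := mul_le_mul_of_nonneg_right hNn (by positivity)
  linarith

theorem badStr_mono {ℓ j : ℕ} (w : Fin ℓ → Fin A) {ε ε' : ℝ} (h : ε' ≤ ε) (u : Fin j → Fin A)
    (hu : u ∉ badStr j w ε') : u ∉ badStr j w ε := by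
  simp only [badStr, Finset.mem_filter, Finset.mem_univ, true_and, not_lt] at hu ⊢
  refine hu.trans ?_
  apply mul_le_mul_of_nonneg_right h (by positivity)

/-- The almost everywhere statement in abstract form. -/
theorem ae_main {Λ : Set ℂ} {α : ℂ} (hα : 1 < ‖α‖) (hA : 0 < A)
    (hsub : ∀ z ∈ Λ, ∀ z' ∈ Λ, z - z' ∈ Λ) {c : ℝ} (hc : 0 < c)
    (hsepΛ : ∀ (j : ℕ) (M : ℂ), M ∈ Λ → M ≠ 0 → M / α ^ j ∈ Λ → c * (A : ℝ) ^ j ≤ ‖M‖ ^ 2) :
    ∀ᵐ x : ℂ, ∀ (k : ℤ) (e : ℕ → Fin A), IsExp Λ α x k e →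
      ∀ (ℓ : ℕ) (w : Fin ℓ → Fin A),
      Tendsto (fun n : ℕ => (((range n).filter (fun m => OccI w e m)).card : ℝ) / n) atTop
        (𝓝 (((1 : ℝ) / A) ^ ℓ)) := by
  obtain ⟨s, hs, hAs⟩ : ∃ s : ℕ, 0 < s ∧ (A : ℝ) ≤ ‖α‖ ^ (2 * s) := by
    obtain ⟨s, hs⟩ := pow_unbounded_of_one_lt (A : ℝ) hα
    refine ⟨s + 1, by omega, hs.le.trans ?_⟩
    exact pow_le_pow_right₀ hα.le (by omega)
  have h1 : ∀ (k : ℤ) (ρ : ℕ) (ℓ : ℕ) (w : Fin ℓ → Fin A) (q : ℕ), ∀ᵐ x : ℂ,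
      ∀ᶠ i : ℕ in atTop, x ∉ Bad Λ α k ρ w (1 / ((q : ℝ) + 1)) (s * (i + 1) ^ 2) ((i + 1) ^ 2) := by
    intro k ρ ℓ w q
    obtain ⟨K, hK0, hK⟩ := volume_bad hα hA hsub hc hsepΛ hs hAs k (ρ := (ρ : ℝ)) (by positivity) w
      (ε := 1 / ((q : ℝ) + 1)) (by positivity)
    apply ae_eventually_notMem
    have hsum : Summable (fun i : ℕ => K / ((i + 1 : ℕ) : ℝ) ^ 2) := by
      have h := (Real.summable_one_div_nat_pow (p := 2)).2 (by norm_num)
      have h' := (summable_nat_add_iff 1).2 h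
      have h'' := h'.mul_left K
      refine h''.congr ?_
      intro i
      push_cast; ring
    have hle : ∑' i : ℕ, volume (Bad Λ α k ρ w (1 / ((q : ℝ) + 1)) (s * (i + 1) ^ 2) ((i + 1) ^ 2))
        ≤ ∑' i : ℕ, ENNReal.ofReal (K / ((i + 1 : ℕ) : ℝ) ^ 2) := by
      apply ENNReal.tsum_le_tsum
      intro i
      have := hK ((i + 1) ^ 2) (by positivity)
      push_cast at this ⊢
      exact this
    exact ne_top_of_le_ne_top (Summable.tsum_ofReal_ne_top hsum) hle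
  have h2 : ∀ᵐ x : ℂ, ∀ (k : ℤ) (ρ : ℕ) (ℓ : ℕ) (w : Fin ℓ → Fin A) (q : ℕ),
      ∀ᶠ i : ℕ in atTop, x ∉ Bad Λ α k ρ w (1 / ((q : ℝ) + 1)) (s * (i + 1) ^ 2) ((i + 1) ^ 2) := by
    simp only [ae_all_iff]
    exact h1
  filter_upwards [h2] with x hx
  intro k e he ℓ w
  apply freq hA w e hs
  intro ε hε
  obtain ⟨q, hq⟩ := exists_nat_one_div_lt hε
  obtain ⟨ρ, hρ⟩ := exists_nat_ge ‖x‖
  obtain ⟨i0, hi0⟩ := eventually_atTop.1 (hx k ρ ℓ w q)
  rw [eventually_atTop]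
  refine ⟨i0 + 1, fun i hi => ?_⟩
  have h3 := hi0 (i - 1) (by omega)
  have h4 : i - 1 + 1 = i := by omega
  rw [h4] at h3
  apply badStr_mono w hq.le
  intro hb
  exact h3 ⟨hρ, e, he, hb⟩

end Pool.Agent.R902.GN
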